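import Pool.Agent.H84.S2.TgD
import Pool.Agent.H62.HIL.Eig

/-!
# MP_70ba79_ag, THEOREM S, part 2, row GNV: the derivatives of `G` vanish at the nodes
-/

set_option autoImplicit false

namespace Pool.Agent.H67.S2

open MvPolynomial SC
open Pool.Agent.H27.LV (ge deg poleOrder canDeg)
open Pool.Agent.H84.SM (cr dt dp)
open Pool.Agent.H92.SF (Q2)
open Pool.Agent.H3.SF (Itg Bb BB Hm eu grd hes Sfc Crd Cnn Crf Prm nv Vl VQ evc FE E)
open Pool.Agent.H84.SF
open Pool.Agent.H3.S2
open Pool.Agent.H84.S2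

section

variable {k F σ : Type} [Field k] [Field F] [Algebra k F]

/-- the chain rule for a derivation of the field -/
theorem gnv_chain [Fintype σ] [DecidableEq σ] (X : σ → F) (D : Derivation k F F)
    (f : MvPolynomial σ k) : D (aeval X f) = ∑ i, aeval X (pderiv i f) * D (X i) := by
  induction f using MvPolynomial.induction_on with
  | C a => simp [algHom_C, Derivation.map_algebraMap]
  | add p q hp hq =>
    rw [map_add, map_add, hp, hq, ← Finset.sum_add_distrib]
    exact Finset.sum_congr rfl fun i _ => by rw [map_add, map_add, add_mul]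
  | mul_X p j hp =>
    rw [map_mul, aeval_X, Derivation.leibniz, hp, smul_eq_mul, smul_eq_mul, Finset.mul_sum]
    have h1 : aeval X p * D (X j) = ∑ i, (if i = j then aeval X p * D (X i) else 0) := by
      rw [Finset.sum_ite_eq' Finset.univ j, if_pos (Finset.mem_univ j)]
    rw [h1, ← Finset.sum_add_distrib]
    refine Finset.sum_congr rfl fun i _ => ?_
    rw [Derivation.leibniz, smul_eq_mul, smul_eq_mul, map_add, map_mul, map_mul, aeval_X]
    by_cases h : i = j
    · subst h
      rw [if_pos rfl, pderiv_X_self, map_one]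
      ring
    · rw [if_neg h, pderiv_X_of_ne (Ne.symm h), map_zero]
      ring

theorem gnv_itg {ι : Type} {u : ι → F} {X : σ → F} (h : ∀ i, Itg k u (X i))
    (f : MvPolynomial σ k) : Itg k u (aeval X f) := by
  have h1 : aeval X f ∈ Bb k u := by
    induction f using MvPolynomial.induction_on with
    | C a =>
      rw [algHom_C]
      exact (Bb k u).algebraMap_mem a
    | add p q hp hq =>
      rw [map_add]
      exact (Bb k u).add_mem hp hq
    | mul_X p j hp =>
      rw [map_mul, aeval_X]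
      exact (Bb k u).mul_mem hp (h j)
  exact h1

end

theorem pf_GNV (hHMF : T_HMF) (hHDD : T_HDD) : T_GNV := by
  intro k F σ _ _ _ _ _ _ _ X u dd J j0 hY m GP hm hGP l
  have hu1 : ∀ i, Hm k (eu u dd) 1 (u i) := by
    intro i
    show eu u dd (u i) = ((1 : ℤ) : F) * u i
    unfold eu
    rw [Fin.sum_univ_three]
    simp only [Derivation.coe_add, Pi.add_apply, Derivation.coe_smul, Pi.smul_apply, smul_eq_mul,
      hY.ddu]
    fin_cases i <;> simp
  have hX1 : ∀ i, Hm k (eu u dd) 1 (X i) := by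
    intro i
    show eu u dd (X i) = ((1 : ℤ) : F) * X i
    rw [hY.Xeu i]
    simp
  have hJh : Hm k (eu u dd) j0 (aeval u J) :=
    Pool.Agent.H62.HIL.hm_aeval (κ := k) (E := eu u dd) hu1 hY.Jh
  have hGh : Hm k (eu u dd) m (aeval X GP) :=
    Pool.Agent.H62.HIL.hm_aeval (κ := k) (E := eu u dd) hX1 hGP
  have hd := hHDD k F u dd hY.ddu hY.comm _ _ l hGh
  have hdeg : Hm k (eu u dd) ((m + 2 * j0 - 1 : ℕ) : ℤ) (aeval u J * (aeval u J *
      dd l (aeval X GP))) := by
    have h1 := Pool.Agent.H62.HIL.hm_mul hJh (Pool.Agent.H62.HIL.hm_mul hJh hd)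
    have h2 : (j0 : ℤ) + (j0 + ((m : ℤ) - 1)) = ((m + 2 * j0 - 1 : ℕ) : ℤ) := by
      push_cast [Nat.cast_sub (show 1 ≤ m + 2 * j0 by omega)]
      ring
    rwa [h2] at h1
  obtain ⟨f, hf, hfa⟩ := hHMF k F σ X u dd J j0 hY _ _
    (hY.JI _ (hY.Jd _ l (gnv_itg hY.Xint GP))) hdeg
  refine ⟨f, hf, by rw [hfa]; ring, ?_⟩
  intro s _ hc hN
  have hq : ∀ i, ∃ q : MvPolynomial σ k, aeval X q = aeval u J * (aeval u J * dd l (X i)) := by
    intro i
    have h1 := hY.JI _ (hY.Jd _ l (hY.Xint i))
    rw [Algebra.adjoin_range_eq_range_aeval] at h1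
    exact h1
  choose q hq using hq
  obtain ⟨f0, hf0, hG1, -⟩ := hN.ex
  have h1 : aeval X GP = aeval X (GP - f0) := by rw [map_sub, hf0, sub_zero]
  have h2 : aeval X (f - ∑ i, pderiv i (GP - f0) * q i) = 0 := by
    rw [map_sub, hfa, map_sum, h1, gnv_chain X (dd l) (GP - f0), Finset.mul_sum, Finset.mul_sum,
      sub_eq_zero]
    refine Finset.sum_congr rfl fun i _ => ?_
    rw [map_mul, hq]
    ring
  have h3 := hc.pt _ h2
  rw [map_sub, map_sum, Finset.sum_eq_zero, sub_zero] at h3
  · exact h3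
  · intro i _
    rw [map_mul, hG1 i, zero_mul]

end Pool.Agent.H67.S2
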