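import Pool.Agent.H84.S2.Tg
import Pool.Agent.H48.SF.LCS

/-!
# MP_70ba79_ag, THEOREM S, part 2, row NF1: a frame of linear forms
-/

set_option autoImplicit false

namespace Pool.Agent.H67.S2

open MvPolynomial SC
open Pool.Agent.H27.LV (ge deg poleOrder canDeg)
open Pool.Agent.H84.SM (cr dt dp)
open Pool.Agent.H3.SF (Itg Bb BB Hm eu grd hes Sfc Crd Cnn Crf Prm nv)
open Pool.Agent.H84.SF Pool.Agent.H3.S2 Pool.Agent.H84.S2

section

variable {k F σ : Type} [Field k] [Field F] [Algebra k F] [Fintype σ]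

/-- the tangent space of the cone over the surface -/
def TY (X : σ → F) (s : σ → k) : Submodule k (σ → k) where
  carrier := {y | TgY X s y}
  zero_mem' := fun f _ => by simp
  add_mem' := by
    intro a b h1 h3 f hf
    simp only [Pi.add_apply, mul_add, Finset.sum_add_distrib]
    rw [h1 f hf, h3 f hf, add_zero]
  smul_mem' := by
    intro c a h1 f hf
    simp only [Pi.smul_apply, smul_eq_mul, mul_left_comm _ c]
    rw [← Finset.mul_sum, h1 f hf, mul_zero]

theorem ty_fin (X : σ → F) (s : σ → k)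
    (h : ∀ y : Fin 4 → σ → k, (∀ i, TgY X s (y i)) → ¬ LinearIndependent k y) :
    Module.finrank k (TY X s) ≤ 3 := by
  by_contra hc
  push Not at hc
  obtain ⟨f, hf⟩ := exists_linearIndependent_of_le_finrank (R := k) (M := TY X s) (n := 4) hc
  exact h (fun i => (f i : σ → k)) (fun i => (f i).2)
    (hf.map' (TY X s).subtype (Submodule.ker_subtype _))

/-- the linear form with the coefficients `w` -/
noncomputable def lf (w : σ → k) : MvPolynomial σ k := ∑ i, C (w i) * MvPolynomial.X i

theorem lf_hom (w : σ → k) : (lf w).IsHomogeneous 1 := by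
  refine MvPolynomial.IsHomogeneous.sum _ _ _ fun i _ => ?_
  have h := (isHomogeneous_C σ (w i)).mul (isHomogeneous_X k i)
  rwa [zero_add] at h

theorem lf_eval (w s : σ → k) : eval s (lf w) = ∑ i, w i * s i := by
  unfold lf
  rw [map_sum]
  exact Finset.sum_congr rfl fun i _ => by rw [map_mul, eval_C, eval_X]

theorem lf_pd [DecidableEq σ] (w s : σ → k) (j : σ) : eval s (pderiv j (lf w)) = w j := by
  unfold lf
  rw [map_sum, map_sum]
  rw [Finset.sum_eq_single j]
  · rw [pderiv_C_mul, pderiv_X_self, mul_one, eval_C]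
  · intro b _ hb
    rw [pderiv_C_mul, pderiv_X_of_ne hb, mul_zero, map_zero]
  · intro hj
    exact absurd (Finset.mem_univ j) hj

theorem lf_dual [DecidableEq σ] (g : (σ → k) →ₗ[k] k) (y : σ → k) :
    ∑ i, g (Pi.single i 1) * y i = g y := by
  conv_rhs => rw [pi_eq_sum_univ' y]
  rw [map_sum]
  refine Finset.sum_congr rfl fun i _ => ?_
  rw [map_smul, smul_eq_mul, mul_comm]

/-- a linear form through `s` which cuts the tangent space down to dimension two -/
theorem lf_ex [DecidableEq σ] (X : σ → F) (s : σ → k)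
    (h : Module.finrank k (TY X s) ≤ 3) : ∃ w : σ → k, ∑ i, w i * s i = 0 ∧
      Module.finrank k (Tng X s (lf w)) ≤ 2 := by
  have hle : ∀ w : σ → k, Tng X s (lf w) ≤ TY X s := fun w y hy => hy.1
  by_cases hT : TY X s ≤ Submodule.span k {s}
  · refine ⟨0, by simp, ?_⟩
    have h1 := Submodule.finrank_mono ((hle 0).trans hT)
    have h2 := finrank_span_le_card (R := k) ({s} : Set (σ → k))
    rw [Set.toFinset_singleton, Finset.card_singleton] at h2
    omega
  · obtain ⟨t, ht, hts⟩ := SetLike.not_le_iff_exists.1 hT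
    obtain ⟨g, hg1, hg2⟩ := Submodule.exists_dual_map_eq_bot_of_notMem hts inferInstance
    have hgs : g s = 0 := by
      have h1 : g s ∈ (Submodule.span k {s}).map g :=
        Submodule.mem_map_of_mem (Submodule.mem_span_singleton_self s)
      rw [hg2] at h1
      exact (Submodule.mem_bot k).1 h1
    refine ⟨fun i => g (Pi.single i 1), by rw [lf_dual, hgs], ?_⟩
    have hlt : Tng X s (lf fun i => g (Pi.single i 1)) < TY X s := by
      refine lt_of_le_of_ne (hle _) fun he => ?_
      rw [← he] at ht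
      have h1 := ht.2
      simp only [lf_pd] at h1
      rw [lf_dual] at h1
      exact hg1 h1
    have := Submodule.finrank_lt_finrank_of_lt hlt
    omega

end

theorem pf_NF1 (hOSF : T_OSF) : T_NF1 := by
  intro k F σ _ _ _ _ _ _ _ X u dd J j0 hY s hs hc hT
  obtain ⟨w, hw, hw2⟩ := lf_ex X s (ty_fin X s hT)
  have hv : eval s (lf w) = 0 := by rw [lf_eval, hw]
  obtain ⟨hN, L0, L1, cX, cG, ε, x1, Gs, dX, dG, hl0, hl1, hv0, hv1, hder, heps, heX, heG, hfrm,
    hdX, hdG⟩ := hOSF k F σ X s dd (lf w) 1 hc hs (Pool.Agent.H48.SF.lin_dd hY) le_rfl (lf_hom w)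
      hv hw2
  exact ⟨hN, L0, L1, lf w, cX, cG, ε, x1, Gs, dX, dG, lf_hom w,
    ⟨hl0, hl1, hv0, hv1, hv, hder, heps, heX, heG, hfrm, hdX, hdG⟩⟩

end Pool.Agent.H67.S2
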