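import Pool.Agent.H84.S2.Tg

/-!
# MP_70ba79_ag, THEOREM S, part 2, row NF2: linear changes of the frame
-/

set_option autoImplicit false

namespace Pool.Agent.H67.S2

open MvPolynomial SC
open Pool.Agent.H27.LV (ge deg poleOrder canDeg)
open Pool.Agent.H84.SM (cr dt dp)
open Pool.Agent.H3.SF (Itg Bb BB Hm eu grd hes Sfc Crd Cnn Crf Prm nv)
open Pool.Agent.H84.SF Pool.Agent.H3.S2 Pool.Agent.H84.S2

/-- a linear combination of derivations with constant coefficients -/
theorem nf2_sum {k F : Type} [Field k] [Field F] [Algebra k F] (dd : Fin 3 → Derivation k F F)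
    (p q : k) (cX cY : Fin 3 → F) (h : F) :
    (∑ l, (algebraMap k F p * cX l + algebraMap k F q * cY l) • dd l) h =
      algebraMap k F p * (∑ l, cX l • dd l) h + algebraMap k F q * (∑ l, cY l • dd l) h := by
  simp only [Fin.sum_univ_three, Derivation.coe_add, Pi.add_apply, Derivation.coe_smul,
    Pi.smul_apply, smul_eq_mul]
  ring

theorem pf_NF2 : T_NF2 := by
  intro k F σ _ _ _ _ X s dd L0 L1 L2 cX cY ε x1 y1 dX dY hL2 hF a b c d hD
  obtain ⟨l0, l1, v0, v1, vG, der, eps, eX, eG, frm, hdX, hdG⟩ := hF
  obtain ⟨f0, f1, f2, g0, g1, g2⟩ := der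
  obtain ⟨hu, hm, xx, xg, gx, gg⟩ := frm
  have hDF : algebraMap k F (a * d - b * c) ≠ 0 := by
    rw [Ne, map_eq_zero]
    exact hD
  set e : k := (a * d - b * c)⁻¹ with he
  have heD : e * (a * d - b * c) = 1 := inv_mul_cancel₀ hD
  have heF : algebraMap k F e * (algebraMap k F a * algebraMap k F d -
      algebraMap k F b * algebraMap k F c) = 1 := by
    rw [← map_mul, ← map_mul, ← map_sub, ← map_mul, heD, map_one]
  have hlin : ∀ (p q : k) (P Q : MvPolynomial σ k), aeval X (p • P + q • Q) =
      algebraMap k F p * aeval X P + algebraMap k F q * aeval X Q := by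
    intro p q P Q
    rw [map_add, map_smul, map_smul, Algebra.smul_def, Algebra.smul_def]
  have hev : ∀ (p q : k) (P Q : MvPolynomial σ k), eval s (p • P + q • Q) =
      p * eval s P + q * eval s Q := by
    intro p q P Q
    rw [map_add, smul_eval, smul_eval]
  have hlam : ∀ (E : Derivation k F F) (p q : k) (P Q : F),
      E (algebraMap k F p * P + algebraMap k F q * Q) =
      algebraMap k F p * E P + algebraMap k F q * E Q := by
    intro E p q P Q
    rw [map_add, ← Algebra.smul_def, ← Algebra.smul_def, Derivation.map_smul,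
      Derivation.map_smul, Algebra.smul_def, Algebra.smul_def]
  have hcoe : ∀ (p : k) (h : Os X s), ((p • h : Os X s) : F) = algebraMap k F p * (h : F) := by
    intro p h
    rw [Subalgebra.coe_smul, Algebra.smul_def]
  refine ⟨fun l => algebraMap k F (e * d) * cX l + algebraMap k F (-(e * c)) * cY l,
    fun l => algebraMap k F (-(e * b)) * cX l + algebraMap k F (e * a) * cY l,
    (e * d) • dX + (-(e * c)) • dY, (-(e * b)) • dX + (e * a) • dY,
    ⟨l0, ?_, v0, ?_, ?_, ⟨?_, ?_, ?_, ?_, ?_, ?_⟩, eps, ?_, ?_, ⟨hu, ?_, ?_, ?_, ?_, ?_⟩, ?_, ?_⟩⟩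
  · exact (homogeneousSubmodule σ k 1).add_mem ((homogeneousSubmodule σ k 1).smul_mem a l1)
      ((homogeneousSubmodule σ k 1).smul_mem b hL2)
  · rw [hev, v1, vG, mul_zero, mul_zero, add_zero]
  · rw [hev, v1, vG, mul_zero, mul_zero, add_zero]
  · rw [nf2_sum, f0, g0, mul_zero, mul_zero, add_zero]
  · rw [nf2_sum, hlin, hlam, hlam, f1, f2, g1, g2, pow_one]
    simp only [map_mul, map_neg]
    linear_combination aeval X L0 * heF
  · rw [nf2_sum, hlin, hlam, hlam, f1, f2, g1, g2, pow_one]
    simp only [map_mul, map_neg]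
    ring
  · rw [nf2_sum, f0, g0, mul_zero, mul_zero, add_zero]
  · rw [nf2_sum, hlin, hlam, hlam, f1, f2, g1, g2, pow_one]
    simp only [map_mul, map_neg]
    ring
  · rw [nf2_sum, hlin, hlam, hlam, f1, f2, g1, g2, pow_one]
    simp only [map_mul, map_neg]
    linear_combination aeval X L0 * heF
  · rw [hlin, ← eX]
    rw [pow_one] at eG
    rw [← eG]
    show ((a • x1 + b • y1 : Os X s) : F) * _ = _
    rw [Subalgebra.coe_add, hcoe, hcoe]
    ring
  · rw [hlin, ← eX]
    rw [pow_one] at eG
    rw [← eG, pow_one]
    show ((c • x1 + d • y1 : Os X s) : F) * _ = _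
    rw [Subalgebra.coe_add, hcoe, hcoe]
    ring
  · intro h
    rw [hm h]
    have hx : x1 = (e * d) • (a • x1 + b • y1) + (-(e * b)) • (c • x1 + d • y1) := by
      have h1 : (e * d) • (a • x1 + b • y1) + (-(e * b)) • (c • x1 + d • y1) =
          (e * (a * d - b * c)) • x1 := by module
      rw [h1, heD, one_smul]
    have hy : y1 = (-(e * c)) • (a • x1 + b • y1) + (e * a) • (c • x1 + d • y1) := by
      have h1 : (-(e * c)) • (a • x1 + b • y1) + (e * a) • (c • x1 + d • y1) =
          (e * (a * d - b * c)) • y1 := by module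
      rw [h1, heD, one_smul]
    constructor
    · rintro ⟨r, t, rfl⟩
      refine ⟨(e * d) • r + (-(e * c)) • t, (-(e * b)) • r + (e * a) • t, ?_⟩
      conv_lhs => rw [hx, hy]
      simp only [mul_add, add_mul, smul_mul_assoc, mul_smul_comm, smul_add, smul_smul]
      module
    · rintro ⟨r, t, rfl⟩
      refine ⟨a • r + c • t, b • r + d • t, ?_⟩
      simp only [mul_add, add_mul, smul_mul_assoc, mul_smul_comm]
      abel
  · rw [Derivation.add_apply, Derivation.smul_apply, Derivation.smul_apply, map_add, map_add,
      Derivation.map_smul, Derivation.map_smul, Derivation.map_smul, Derivation.map_smul, xx, xg, gx, gg, smul_zero, smul_zero, add_zero,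
      zero_add, smul_smul, smul_smul, ← add_smul]
    have h1 : e * (a * d - b * c) = e * d * a + -(e * c) * b := by ring
    have h2 : e * (a * d - b * c) = -(e * b) * c + e * a * d := by ring
    first
      | rw [← h1, heD, one_smul]
      | rw [← h2, heD, one_smul]
  · rw [Derivation.add_apply, Derivation.smul_apply, Derivation.smul_apply, map_add, map_add,
      Derivation.map_smul, Derivation.map_smul, Derivation.map_smul, Derivation.map_smul, xx, xg, gx, gg, smul_zero, smul_zero, add_zero,
      zero_add, smul_smul, smul_smul, ← add_smul]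
    have h1 : e * d * c + -(e * c) * d = 0 := by ring
    rw [h1, zero_smul]
  · rw [Derivation.add_apply, Derivation.smul_apply, Derivation.smul_apply, map_add, map_add,
      Derivation.map_smul, Derivation.map_smul, Derivation.map_smul, Derivation.map_smul, xx, xg, gx, gg, smul_zero, smul_zero, add_zero,
      zero_add, smul_smul, smul_smul, ← add_smul]
    have h1 : -(e * b) * a + e * a * b = 0 := by ring
    rw [h1, zero_smul]
  · rw [Derivation.add_apply, Derivation.smul_apply, Derivation.smul_apply, map_add, map_add,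
      Derivation.map_smul, Derivation.map_smul, Derivation.map_smul, Derivation.map_smul, xx, xg, gx, gg, smul_zero, smul_zero, add_zero,
      zero_add, smul_smul, smul_smul, ← add_smul]
    have h1 : e * (a * d - b * c) = e * d * a + -(e * c) * b := by ring
    have h2 : e * (a * d - b * c) = -(e * b) * c + e * a * d := by ring
    first
      | rw [← h1, heD, one_smul]
      | rw [← h2, heD, one_smul]
  · intro h
    rw [nf2_sum, ← hdX, ← hdG]
    rw [Derivation.add_apply, Derivation.smul_apply, Derivation.smul_apply, Subalgebra.coe_add,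
      hcoe, hcoe]
  · intro h
    rw [nf2_sum, ← hdX, ← hdG]
    rw [Derivation.add_apply, Derivation.smul_apply, Derivation.smul_apply, Subalgebra.coe_add,
      hcoe, hcoe]

end Pool.Agent.H67.S2
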