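import Pool.Agent.H84.S2.Tg

/-!
# Row PRI: `G` is a prime element of the local ring
-/

set_option autoImplicit false

namespace Pool.Agent.H67.S2

open MvPolynomial SC
open Pool.Agent.H27.LV (ge deg poleOrder canDeg)
open Pool.Agent.H84.SM (cr dt dp)
open Pool.Agent.H3.SF (Itg Bb BB Hm eu grd hes Sfc Crd Cnn Crf Prm nv)
open Pool.Agent.H84.SF Pool.Agent.H3.S2 Pool.Agent.H84.S2

theorem pf_PRI (hTAY : T_TAY) (hTAK : T_TAK) : T_PRI := by
  intro k O _ _ _ _ _ _ ε X G dX dG h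
  obtain ⟨c, hc, hG, -⟩ := hTAY k O ε X G dX dG h
  have hker : ∀ t, c t = 0 ↔ G ∣ t := by
    intro t
    refine ⟨hTAK k O ε X G dX dG h c hc hG t, ?_⟩
    rintro ⟨w, rfl⟩
    rw [map_mul, hG, zero_mul]
  have hG0 : G ≠ 0 := by
    intro h0
    have h1 := h.gg
    rw [h0, map_zero] at h1
    exact zero_ne_one h1
  have hGu : ¬ IsUnit G := by
    intro hu
    have h1 : IsUnit (c G) := hu.map c
    rw [hG] at h1
    exact not_isUnit_zero h1
  refine ⟨⟨hG0, hGu, fun a b hab => ?_⟩, fun hX => ?_⟩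
  · have h1 : c a * c b = 0 := by
      rw [← map_mul]
      exact (hker _).2 hab
    rcases mul_eq_zero.1 h1 with h2 | h2
    · exact Or.inl ((hker a).1 h2)
    · exact Or.inr ((hker b).1 h2)
  · have h1 := (hker X).2 hX
    rw [hc.eqX] at h1
    have h2 : Pool.Agent.H92.OD.cf (Pool.Agent.H92.OD.uu k) 1 = 1 :=
      HahnSeries.coeff_single_same 1 1
    rw [h1] at h2
    have h3 : Pool.Agent.H92.OD.cf (0 : Pool.Agent.H92.OD.HS k) 1 = 0 := rfl
    rw [h3] at h2
    exact zero_ne_one h2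

end Pool.Agent.H67.S2
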