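import Pool.Agent.H84.S2.TgD

/-!
# MP_70ba79_ag, THEOREM S, part 2, row VDB: the conditions are independent
-/

set_option autoImplicit false

namespace Pool.Agent.H67.S2

open MvPolynomial SC
open Pool.Agent.H27.LV (ge deg poleOrder canDeg)
open Pool.Agent.H84.SM (cr dt dp)
open Pool.Agent.H92.SF (Q2)
open Pool.Agent.H3.SF (Itg Bb BB Hm eu grd hes Sfc Crd Cnn Crf Prm nv Vl VQ evc FE E)
open Pool.Agent.H84.SF
open Pool.Agent.H3.S2
open Pool.Agent.H84.S2

section

variable {k F σ : Type} [Field k] [Field F] [Algebra k F] {X : σ → F} {s : σ → k}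

theorem ae_ne (hc : Cone X s) {b : MvPolynomial σ k} (hb : eval s b ≠ 0) : aeval X b ≠ 0 :=
  fun h => hb (hc.pt b h)

/-- the quotient of two forms -/
noncomputable def qt (hc : Cone X s) (d : ℕ) (a b : MvPolynomial σ k) (ha : a.IsHomogeneous d)
    (hb : b.IsHomogeneous d) (hs : eval s b ≠ 0) : Os X s :=
  ⟨aeval X a / aeval X b, d, a, b, ⟨ha, hb, div_mul_cancel₀ _ (ae_ne hc hs)⟩, hs⟩

/-- the elements of the form `v / L0 ^ e` -/
noncomputable def psi (hc : Cone X s) (L0 : MvPolynomial σ k) (h1 : L0.IsHomogeneous 1)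
    (hs : eval s L0 ≠ 0) (e : ℕ) : Vf (k := k) X e →ₗ[k] Os X s where
  toFun v := ⟨(v : F) / aeval X L0 ^ e, by
    obtain ⟨f, hf, hfv⟩ := v.2
    refine ⟨e, f, L0 ^ e, ⟨hf, ?_, ?_⟩, ?_⟩
    · have := h1.pow e
      rwa [one_mul] at this
    · rw [map_pow, div_mul_cancel₀ _ (pow_ne_zero _ (ae_ne hc hs))]
      exact hfv.symm
    · rw [map_pow]
      exact pow_ne_zero _ hs⟩
  map_add' v w := by
    apply Subtype.ext
    show ((v + w : Vf (k := k) X e) : F) / _ = (v : F) / _ + (w : F) / _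
    rw [Submodule.coe_add, add_div]
  map_smul' c v := by
    apply Subtype.ext
    show ((c • v : Vf (k := k) X e) : F) / _ = c • ((v : F) / _)
    rw [Submodule.coe_smul, smul_div_assoc]

theorem psi_mul (hc : Cone X s) (L0 : MvPolynomial σ k) (h1 : L0.IsHomogeneous 1)
    (hs : eval s L0 ≠ 0) (e : ℕ) (v : Vf (k := k) X e) :
    (psi hc L0 h1 hs e v : F) * aeval X L0 ^ e = (v : F) :=
  div_mul_cancel₀ _ (pow_ne_zero _ (ae_ne hc hs))

/-- `Mx` is the kernel of the evaluation -/
theorem mx_ker (ε : Os X s →ₐ[k] k) (heps : ∀ (h : Os X s) (d : ℕ) (a b : MvPolynomial σ k),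
    Rep X (h : F) d a b → ε h * eval s b = eval s a) : Mx X s = RingHom.ker ε := by
  apply le_antisymm
  · refine Ideal.span_le.2 ?_
    rintro z ⟨d, a, b, hr, hb, ha⟩
    have h1 := heps z d a b hr
    rw [ha] at h1
    exact (mul_eq_zero.1 h1).resolve_right hb
  · intro z hz
    obtain ⟨d, a, b, hr, hb⟩ := z.2
    refine Ideal.subset_span ⟨d, a, b, hr, hb, ?_⟩
    have h1 := heps z d a b hr
    have h2 : ε z = 0 := hz
    rw [h2, zero_mul] at h1
    exact h1.symm

theorem vf_fin [Fintype σ] (X : σ → F) (e : ℕ) : Module.Finite k (Vf (k := k) X e) := by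
  haveI : Module.Finite k (homogeneousSubmodule σ k e) :=
    Module.Finite.iff_fg.2 (homogeneousSubmodule_fg σ k e)
  unfold Vf
  exact Module.Finite.map _ _

end

/-- dimension count with a surjective map -/
theorem dim_sur {κ M : Type} {ι : Type} [Field κ] [AddCommGroup M] [Module κ M] [Fintype ι]
    (Q : ι → Type) [∀ i, AddCommGroup (Q i)] [∀ i, Module κ (Q i)]
    [∀ i, Module.Finite κ (Q i)] (V W : Submodule κ M) [Module.Finite κ V] (hWV : W ≤ V)
    (f : V →ₗ[κ] ∀ i, Q i) (hf : Function.Surjective f) (hW : ∀ v : V, (v : M) ∈ W → f v = 0) :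
    Module.finrank κ W + ∑ i, Module.finrank κ (Q i) ≤ Module.finrank κ V := by
  have h1 := LinearMap.finrank_range_add_finrank_ker f
  rw [LinearMap.range_eq_top.2 hf, finrank_top, Module.finrank_pi_fintype] at h1
  have h2 : Module.finrank κ W ≤ Module.finrank κ (LinearMap.ker f) := by
    have h3 : W.submoduleOf V ≤ LinearMap.ker f := fun v hv => hW v hv
    have h4 := Submodule.finrank_mono h3
    rwa [LinearEquiv.finrank_eq (Submodule.submoduleOfEquivOfLe hWV)] at h4
  omega

theorem pf_VDB (hJDA : T_JDA) (hJSP : T_JSP) : T_VDB := by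
  classical
  intro k F σ _ _ _ _ _ X T r hT hsep e h heh
  have hTc : ∀ s : T, Cone X s.1 := fun s => (hT s.1 s.2).1
  have hTp : ∀ s : T, Pt X s.1 := fun s => (hT s.1 s.2).2
  have hL : ∀ s : T, ∃ L0 : MvPolynomial σ k, L0.IsHomogeneous 1 ∧ eval s.1 L0 ≠ 0 := by
    intro s
    obtain ⟨L0, L1, L2, ε, x1, y1, dX, dY, h1, -, -, h2, -⟩ := hTp s
    exact ⟨L0, h1, h2⟩
  choose L0 hL1 hLs using hL
  have hQ : ∀ s : T, Module.Finite k (Os X s.1 ⧸ Mx X s.1 ^ h) ∧
      2 * Module.finrank k (Os X s.1 ⧸ Mx X s.1 ^ h) = h * (h + 1) := by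
    intro s
    obtain ⟨l0, L1, L2, ε, x1, y1, dX, dY, -, -, -, -, heps, -, -, hfr⟩ := hTp s
    rw [mx_ker ε heps]
    exact hJDA k (Os X s.1) ε x1 y1 dX dY hfr h
  haveI : ∀ s : T, Module.Finite k (Os X s.1 ⧸ Mx X s.1 ^ h) := fun s => (hQ s).1
  haveI : Module.Finite k (Vf (k := k) X e) := vf_fin X e
  let f : Vf (k := k) X e →ₗ[k] ∀ s : T, (Os X s.1 ⧸ Mx X s.1 ^ h) :=
    LinearMap.pi fun s => (Ideal.Quotient.mkₐ k (Mx X s.1 ^ h)).toLinearMap.comp
      (psi (hTc s) (L0 s) (hL1 s) (hLs s) e)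
  have hfs : ∀ v s, f v s = Ideal.Quotient.mk (Mx X s.1 ^ h)
      (psi (hTc s) (L0 s) (hL1 s) (hLs s) e v) := fun v s => rfl
  have hW : ∀ v : Vf (k := k) X e, (v : F) ∈ Wf X T e h → f v = 0 := by
    intro v hv
    funext s
    rw [hfs, Pi.zero_apply, Ideal.Quotient.eq_zero_iff_mem]
    have h1 : (v : F) ∈ Vo X s.1 e h := by
      have h2 : (v : F) ∈ ⨅ t ∈ T, Vo X t e h := hv.2
      rw [Submodule.mem_iInf] at h2
      have h3 := h2 s.1
      rw [Submodule.mem_iInf] at h3
      exact h3 s.2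
    obtain ⟨z, hz, hzv⟩ := h1 (L0 s) (hL1 s) (hLs s)
    have h2 : psi (hTc s) (L0 s) (hL1 s) (hLs s) e v = z := by
      apply Subtype.ext
      have h3 := psi_mul (hTc s) (L0 s) (hL1 s) (hLs s) e v
      rw [← hzv] at h3
      exact mul_right_cancel₀ (pow_ne_zero _ (ae_ne (hTc s) (hLs s))) h3
    rw [h2]
    exact hz
  have hsur : Function.Surjective f := by
    intro y
    have hfo : ∀ s : T, ∃ v : Vf (k := k) X e, f v s = y s ∧ ∀ t : T, t ≠ s → f v t = 0 := by
      intro s
      obtain ⟨z, hz⟩ := Ideal.Quotient.mk_surjective (y s)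
      obtain ⟨fs, hfs1, hfs2, hfs3⟩ := hsep s.1 s.2
      have hle : h ≤ e - r * h := by
        have : (r + 1) * h = r * h + h := by ring
        omega
      have hrh : r * h ≤ e := by
        have : (r + 1) * h = r * h + h := by ring
        omega
      have hFh : (fs ^ h).IsHomogeneous (r * h) := hfs1.pow h
      have hLh : (L0 s ^ (r * h)).IsHomogeneous (r * h) := by
        have := (hL1 s).pow (r * h)
        rwa [one_mul] at this
      have hFs : eval s.1 (fs ^ h) ≠ 0 := by
        rw [map_pow]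
        exact pow_ne_zero _ hfs2
      have hLn : eval s.1 (L0 s ^ (r * h)) ≠ 0 := by
        rw [map_pow]
        exact pow_ne_zero _ (hLs s)
      set U := qt (hTc s) (r * h) (fs ^ h) (L0 s ^ (r * h)) hFh hLh hLn with hU
      set V := qt (hTc s) (r * h) (L0 s ^ (r * h)) (fs ^ h) hLh hFh hFs with hV
      have hUV : U * V = 1 := by
        apply Subtype.ext
        show aeval X (fs ^ h) / aeval X (L0 s ^ (r * h)) *
          (aeval X (L0 s ^ (r * h)) / aeval X (fs ^ h)) = 1
        rw [div_mul_div_cancel₀ (ae_ne (hTc s) hLn), div_self (ae_ne (hTc s) hFs)]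
      obtain ⟨w, g, hw, hg, hwg⟩ := hJSP k F σ X s.1 (hTc s) (hTp s) (L0 s) (hL1 s) (hLs s)
        (e - r * h) h hle (z * V)
      have hfg : (fs ^ h * g).IsHomogeneous e := by
        have h1 := hFh.mul hg
        have h2 : r * h + (e - r * h) = e := by omega
        rwa [h2] at h1
      have hLe : aeval X (L0 s) ^ e = aeval X (L0 s ^ (r * h)) * aeval X (L0 s) ^ (e - r * h) := by
        rw [map_pow, ← pow_add]
        congr 1
        omega
      refine ⟨⟨aeval X (fs ^ h * g), fs ^ h * g, hfg, rfl⟩, ?_, ?_⟩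
      · rw [hfs, ← hz, ← sub_eq_zero, ← map_sub, Ideal.Quotient.eq_zero_iff_mem]
        have h1 : psi (hTc s) (L0 s) (hL1 s) (hLs s) e
            ⟨aeval X (fs ^ h * g), fs ^ h * g, hfg, rfl⟩ - z = U * w := by
          have h2 : psi (hTc s) (L0 s) (hL1 s) (hLs s) e
              ⟨aeval X (fs ^ h * g), fs ^ h * g, hfg, rfl⟩ = U * (z * V + w) := by
            apply Subtype.ext
            apply mul_right_cancel₀ (pow_ne_zero e (ae_ne (hTc s) (hLs s)))
            rw [psi_mul]
            show aeval X (fs ^ h * g) = (aeval X (fs ^ h) / aeval X (L0 s ^ (r * h))) *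
              ((z * V + w : Os X s.1) : F) * aeval X (L0 s) ^ e
            rw [map_mul, ← hwg, hLe]
            have h3 := ae_ne (hTc s) hLn
            field_simp
          rw [h2]
          linear_combination z * hUV
        rw [h1]
        exact Ideal.mul_mem_left _ _ hw
      · intro t hts
        rw [hfs, Ideal.Quotient.eq_zero_iff_mem]
        have hne : t.1 ≠ s.1 := fun hh => hts (Subtype.ext hh)
        have ht0 : eval t.1 fs = 0 := hfs3 t.1 t.2 hne
        have hLr : (L0 t ^ r).IsHomogeneous r := by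
          have := (hL1 t).pow r
          rwa [one_mul] at this
        have hLg : (L0 t ^ (e - r * h)).IsHomogeneous (e - r * h) := by
          have := (hL1 t).pow (e - r * h)
          rwa [one_mul] at this
        have hLrn : eval t.1 (L0 t ^ r) ≠ 0 := by
          rw [map_pow]
          exact pow_ne_zero _ (hLs t)
        have hLgn : eval t.1 (L0 t ^ (e - r * h)) ≠ 0 := by
          rw [map_pow]
          exact pow_ne_zero _ (hLs t)
        have hm : qt (hTc t) r fs (L0 t ^ r) hfs1 hLr hLrn ∈ Mx X t.1 :=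
          Ideal.subset_span ⟨r, fs, L0 t ^ r,
            ⟨hfs1, hLr, div_mul_cancel₀ _ (ae_ne (hTc t) hLrn)⟩, hLrn, ht0⟩
        have h1 : psi (hTc t) (L0 t) (hL1 t) (hLs t) e
            ⟨aeval X (fs ^ h * g), fs ^ h * g, hfg, rfl⟩ =
            qt (hTc t) r fs (L0 t ^ r) hfs1 hLr hLrn ^ h *
              qt (hTc t) (e - r * h) g (L0 t ^ (e - r * h)) hg hLg hLgn := by
          apply Subtype.ext
          apply mul_right_cancel₀ (pow_ne_zero e (ae_ne (hTc t) (hLs t)))
          rw [psi_mul]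
          show aeval X (fs ^ h * g) = (aeval X fs / aeval X (L0 t ^ r)) ^ h *
              (aeval X g / aeval X (L0 t ^ (e - r * h))) * aeval X (L0 t) ^ e
          have h3 := ae_ne (hTc t) (hLs t)
          have h4 : aeval X (L0 t) ^ e = (aeval X (L0 t) ^ r) ^ h *
              aeval X (L0 t) ^ (e - r * h) := by
            rw [← pow_mul, ← pow_add]
            congr 1
            omega
          rw [h4, map_mul, map_pow, map_pow, map_pow, div_pow]
          field_simp
        rw [h1]
        exact Ideal.mul_mem_right _ _ (Ideal.pow_mem_pow hm h)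
    choose v hv1 hv2 using hfo
    refine ⟨∑ s, v s, ?_⟩
    funext t
    rw [map_sum, Finset.sum_apply, Finset.sum_eq_single t]
    · exact hv1 t
    · intro s _ hst
      exact hv2 s t (Ne.symm hst)
    · intro ht
      exact absurd (Finset.mem_univ t) ht
  have hmain := dim_sur (fun s : T => (Os X s.1 ⧸ Mx X s.1 ^ h)) (Vf (k := k) X e)
    (Wf X T e h) inf_le_left f hsur hW
  have hsum : 2 * ∑ s : T, Module.finrank k (Os X s.1 ⧸ Mx X s.1 ^ h) = T.card * (h * (h + 1)) := by
    rw [Finset.mul_sum, Finset.sum_congr rfl fun s _ => (hQ s).2, Finset.sum_const,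
      Finset.card_univ, Fintype.card_coe, smul_eq_mul]
  omega

end Pool.Agent.H67.S2
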